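import Mathlib

/-!
Project KL (helper41, MP_b5f63d_co): the linear programming bound for kissing numbers cannot prove
a better bound than `(2 e / π)^(n/2 + o(n))`. Definitions and statements of the pieces.
(Averaging argument of Cohn and Zhao.)
-/

set_option autoImplicit false

open MeasureTheory Filter Topology

open scoped FourierTransform

namespace Pool.Agent.TH41.KL

/-- the cosine of the angle between `u` and `w` (`0` if one of them is `0`) -/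
noncomputable def cosA {n : ℕ} (u w : EuclideanSpace ℝ (Fin n)) : ℝ :=
  inner ℝ u w / (‖u‖ * ‖w‖)

/-- `g (⟨x, y⟩)` is a positive definite kernel on the unit sphere of `ℝ^n` -/
def PD (n : ℕ) (g : ℝ → ℝ) : Prop :=
  ∀ (m : ℕ) (x : Fin m → EuclideanSpace ℝ (Fin n)) (a : Fin m → ℝ), (∀ i, ‖x i‖ = 1) →
    0 ≤ ∑ i, ∑ j, a i * a j * g (inner ℝ (x i) (x j))

/-- the kernel `g(cos ∠(u, w))` on the open unit ball -/
noncomputable def kk {n : ℕ} (g : ℝ → ℝ) (u w : EuclideanSpace ℝ (Fin n)) : ℝ :=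
  (Metric.ball (0 : EuclideanSpace ℝ (Fin n)) 1).indicator
    (fun _ => (Metric.ball (0 : EuclideanSpace ℝ (Fin n)) 1).indicator (fun _ => g (cosA u w)) w) u

/-- the function of Cohn and Zhao: `f(x - y) = ∫ k(x - z, y - z) dz` -/
noncomputable def ff {n : ℕ} (g : ℝ → ℝ) (x : EuclideanSpace ℝ (Fin n)) : ℝ :=
  ∫ z, kk g (x - z) (-z)

/-- Q: the integrated kernel is positive semidefinite -/
def S_q : Prop := ∀ (n : ℕ) (g : ℝ → ℝ), 0 < n → ContinuousOn g (Set.Icc (-1) 1) → PD n g →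
  ∀ φ : EuclideanSpace ℝ (Fin n) → ℝ, Continuous φ → (∃ M : ℝ, ∀ x, |φ x| ≤ M) →
    0 ≤ ∫ u, ∫ w, kk g u w * (φ u * φ w)

/-- F: continuity, integrability and Fourier transform of `ff` -/
def S_f : Prop := ∀ (n : ℕ) (g : ℝ → ℝ), 0 < n → ContinuousOn g (Set.Icc (-1) 1) →
  Continuous (ff (n := n) g) ∧ Integrable (ff (n := n) g) ∧
  (∃ M : ℝ, ∀ x, |ff (n := n) g x| ≤ M) ∧
  (∫ x, ff (n := n) g x = ∫ u, ∫ w, kk (n := n) g u w) ∧
  (∀ ξ : EuclideanSpace ℝ (Fin n), 𝓕 (fun x => ((ff g x : ℝ) : ℂ)) ξ =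
    (((∫ u, ∫ w, kk g u w * (Real.cos (2 * Real.pi * inner ℝ ξ u) *
        Real.cos (2 * Real.pi * inner ℝ ξ w))) +
      (∫ u, ∫ w, kk g u w * (Real.sin (2 * Real.pi * inner ℝ ξ u) *
        Real.sin (2 * Real.pi * inner ℝ ξ w))) : ℝ) : ℂ))

/-- FI: a continuous integrable bounded function with nonnegative Fourier transform has an
integrable Fourier transform -/
def S_fi : Prop := ∀ (n : ℕ) (f : EuclideanSpace ℝ (Fin n) → ℂ), Continuous f → Integrable f →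
  (∃ M : ℝ, ∀ x, ‖f x‖ ≤ M) → (∀ ξ, 0 ≤ (𝓕 f ξ).re) → (∀ ξ, (𝓕 f ξ).im = 0) →
  Integrable (𝓕 f)

/-- NG: sign and value at `0` of `ff` -/
def S_ng : Prop := ∀ (n : ℕ) (g : ℝ → ℝ), 0 < n →
  (ff g (0 : EuclideanSpace ℝ (Fin n)) =
    g 1 * (volume (Metric.ball (0 : EuclideanSpace ℝ (Fin n)) 1)).toReal) ∧
  ∀ s : ℝ, -1 ≤ s → s ≤ 1 / 2 → (∀ t : ℝ, -1 ≤ t → t ≤ s → g t ≤ 0) →
    ∀ x : EuclideanSpace ℝ (Fin n), √(2 * (1 - s)) ≤ ‖x‖ → ff g x ≤ 0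

/-- MAIN -/
def S_kmain : Prop := ∀ ε : ℝ, 0 < ε → ∃ n0 : ℕ, ∀ n : ℕ, n0 ≤ n → ∀ (s : ℝ) (g : ℝ → ℝ),
  -1 ≤ s → s ≤ 1 / 2 → ContinuousOn g (Set.Icc (-1) 1) → PD n g →
  (∀ t : ℝ, -1 ≤ t → t ≤ s → g t ≤ 0) → 0 < ∫ u, ∫ w, kk (n := n) g u w →
  (Real.exp 1 / (Real.pi * (1 - s))) ^ ((n : ℝ) / 2) * Real.exp (-ε * n) ≤
    g 1 / ((∫ u, ∫ w, kk (n := n) g u w) /
      (volume (Metric.ball (0 : EuclideanSpace ℝ (Fin n)) 1)).toReal ^ 2)

end Pool.Agent.TH41.KL
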