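import Mathlib
import Pool.Agent.TH41.KL.Stm
import Pool.Agent.TH41.LP.SCL

set_option autoImplicit false

open MeasureTheory Filter Topology

open scoped FourierTransform

namespace Pool.Agent.TH41.KL.ASMf

open Pool.Agent.TH41.KL

theorem vol_scale1 {n : ℕ} {r : ℝ} (hr : 0 < r) :
    (volume (Metric.ball (0 : EuclideanSpace ℝ (Fin n)) (r / 2))).toReal =
      (r / 2) ^ n * (volume (Metric.ball (0 : EuclideanSpace ℝ (Fin n)) 1)).toReal := by
  have hr2 : 0 < r / 2 := by positivity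
  have h := Measure.addHaar_ball_mul_of_pos (volume : Measure (EuclideanSpace ℝ (Fin n))) 0 hr2 1
  rw [mul_one, finrank_euclideanSpace_fin] at h
  rw [h, ENNReal.toReal_mul, ENNReal.toReal_ofReal (by positivity)]

theorem kmain_of (hq : S_q) (hf : S_f) (hfi : S_fi) (hng : S_ng) : S_kmain := by
  intro ε hε
  obtain ⟨d0, h⟩ := Pool.Agent.TH41.LP.SCLf.lp_main_r ε hε
  refine ⟨max d0 1, fun n hn s g hs1 hs2 hgc hpd hneg hpos => ?_⟩
  have hn0 : 0 < n := by
    have := (le_max_right d0 1).trans hn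
    omega
  have hr2 : 0 < 2 * (1 - s) := by linarith
  have hr : 0 < √(2 * (1 - s)) := Real.sqrt_pos.2 hr2
  obtain ⟨hc, hi, ⟨M, hM⟩, hint, hF⟩ := hf n g hn0 hgc
  obtain ⟨h0, hng'⟩ := hng n g hn0
  have hFre : ∀ ξ : EuclideanSpace ℝ (Fin n), 0 ≤ (𝓕 (fun x => ((ff g x : ℝ) : ℂ)) ξ).re := by
    intro ξ
    rw [hF ξ, Complex.ofReal_re]
    have h1 := hq n g hn0 hgc hpd (fun u => Real.cos (2 * Real.pi * inner ℝ ξ u)) (by fun_prop)
      ⟨1, fun x => Real.abs_cos_le_one _⟩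
    have h2 := hq n g hn0 hgc hpd (fun u => Real.sin (2 * Real.pi * inner ℝ ξ u)) (by fun_prop)
      ⟨1, fun x => Real.abs_sin_le_one _⟩
    exact add_nonneg h1 h2
  have hFim : ∀ ξ : EuclideanSpace ℝ (Fin n), (𝓕 (fun x => ((ff g x : ℝ) : ℂ)) ξ).im = 0 := by
    intro ξ
    rw [hF ξ, Complex.ofReal_im]
  have hFi : Integrable (𝓕 (fun x : EuclideanSpace ℝ (Fin n) => ((ff g x : ℝ) : ℂ))) := by
    refine hfi n _ (Complex.continuous_ofReal.comp hc) hi.ofReal ⟨M, fun x => ?_⟩ hFre hFim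
    rw [Complex.norm_real]
    exact hM x
  have key := h n ((le_max_left d0 1).trans hn) (√(2 * (1 - s))) (ff g) hr hc hi hFi hFim hFre
    (by rw [hint]; exact hpos) (hng' s hs1 hs2 hneg)
  rw [hint, h0, vol_scale1 hr] at key
  have hV : 0 < (volume (Metric.ball (0 : EuclideanSpace ℝ (Fin n)) 1)).toReal := by
    apply ENNReal.toReal_pos
    · exact (Metric.measure_ball_pos volume 0 one_pos).ne'
    · exact measure_ball_lt_top.ne
  set V := (volume (Metric.ball (0 : EuclideanSpace ℝ (Fin n)) 1)).toReal with hVdef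
  set I := ∫ u, ∫ w, kk (n := n) g u w with hI
  have e1 : (√(2 * (1 - s)) / 2) ^ n * V * (g 1 * V) / I =
      (√(2 * (1 - s)) / 2) ^ n * (g 1 / (I / V ^ 2)) := by
    field_simp
  rw [e1] at key
  have e2 : (Real.exp 1 / (Real.pi * (1 - s))) ^ ((n : ℝ) / 2) =
      (Real.exp 1 / (2 * Real.pi)) ^ ((n : ℝ) / 2) * ((√(2 * (1 - s)) / 2) ^ n)⁻¹ := by
    have h1 : (√(2 * (1 - s)) / 2) ^ n = ((1 - s) / 2) ^ ((n : ℝ) / 2) := by
      have h2 : √(2 * (1 - s)) / 2 = √((1 - s) / 2) := by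
        rw [show 2 * (1 - s) = 2 ^ 2 * ((1 - s) / 2) by ring, Real.sqrt_mul (by norm_num),
          Real.sqrt_sq (by norm_num)]
        ring
      rw [h2, Real.sqrt_eq_rpow, ← Real.rpow_natCast, ← Real.rpow_mul (by linarith)]
      congr 1
      ring
    have hpi := Real.pi_pos
    rw [h1, ← Real.inv_rpow (by linarith), ← Real.mul_rpow (by positivity) (by
      apply inv_nonneg.2
      linarith)]
    congr 1
    have : 1 - s ≠ 0 := by linarith
    field_simp
  have hpow : 0 < (√(2 * (1 - s)) / 2) ^ n := by positivity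
  rw [e2]
  calc _ = ((√(2 * (1 - s)) / 2) ^ n)⁻¹ *
        ((Real.exp 1 / (2 * Real.pi)) ^ ((n : ℝ) / 2) * Real.exp (-ε * n)) := by ring
    _ ≤ ((√(2 * (1 - s)) / 2) ^ n)⁻¹ * ((√(2 * (1 - s)) / 2) ^ n * (g 1 / (I / V ^ 2))) :=
        mul_le_mul_of_nonneg_left key (by positivity)
    _ = _ := by
        rw [← mul_assoc, inv_mul_cancel₀ hpow.ne', one_mul]

end Pool.Agent.TH41.KL.ASMf
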