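import Mathlib
import Pool.Agent.TH41.KL.Stm

set_option autoImplicit false

/-!
# KL-FI: a continuous integrable function with nonnegative Fourier transform has an integrable
Fourier transform (job 2736, helper592 for helper41)
-/

open MeasureTheory Filter Topology

open scoped FourierTransform

namespace Pool.Agent.TH41.KL.FIf

open Pool.Agent.TH41.KL

theorem cont_fou {n : ℕ} {f : EuclideanSpace ℝ (Fin n) → ℂ} (hi : Integrable f) :
    Continuous (𝓕 f) :=
  VectorFourier.fourierIntegral_continuous Real.continuous_fourierChar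
    (L := innerₗ (EuclideanSpace ℝ (Fin n))) continuous_inner hi

theorem norm_fou {n : ℕ} {f : EuclideanSpace ℝ (Fin n) → ℂ} (w : EuclideanSpace ℝ (Fin n)) :
    ‖𝓕 f w‖ ≤ ∫ x, ‖f x‖ :=
  VectorFourier.norm_fourierIntegral_le_integral_norm _ _ (innerₗ (EuclideanSpace ℝ (Fin n))) f w

/-- the multiplication formula for a Gaussian -/
theorem mulf {n : ℕ} {f : EuclideanSpace ℝ (Fin n) → ℂ} (hi : Integrable f) {c : ℝ} (hc : 0 < c) :
    ∫ w : EuclideanSpace ℝ (Fin n), Complex.exp (-c⁻¹ * ‖w‖ ^ 2) • 𝓕 f w =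
      ∫ w : EuclideanSpace ℝ (Fin n),
        ((Real.pi * c : ℂ) ^ (Module.finrank ℝ (EuclideanSpace ℝ (Fin n)) / 2 : ℂ) *
          Complex.exp (-Real.pi ^ 2 * c * ‖(0 : EuclideanSpace ℝ (Fin n)) - w‖ ^ 2)) • f w := by
  have J : Integrable (fun w : EuclideanSpace ℝ (Fin n) => Complex.exp (- c⁻¹ * ‖w‖ ^ 2 +
      2 * Real.pi * Complex.I * inner ℝ (0 : EuclideanSpace ℝ (Fin n)) w)) :=
    GaussianFourier.integrable_cexp_neg_mul_sq_norm_add (by simpa using hc) _ _
  have h := (VectorFourier.integral_fourierIntegral_smul_eq_flip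
    (L := innerₗ (EuclideanSpace ℝ (Fin n)))
      Real.continuous_fourierChar continuous_inner J hi).symm
  have h1 : ∫ w : EuclideanSpace ℝ (Fin n), Complex.exp (-c⁻¹ * ‖w‖ ^ 2) • 𝓕 f w =
      ∫ w : EuclideanSpace ℝ (Fin n), 𝓕 (fun w : EuclideanSpace ℝ (Fin n) =>
        Complex.exp (- c⁻¹ * ‖w‖ ^ 2 +
      2 * Real.pi * Complex.I * inner ℝ (0 : EuclideanSpace ℝ (Fin n)) w)) w • f w := by
    simpa using! h
  rw [h1]
  congr with w
  rw [fourier_gaussian_innerProductSpace' (by simpa using hc)]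
  congr
  · simp
  · simp; ring

theorem fi : S_fi := by
  intro n f hf hi _ hre him
  have hcont := cont_fou hi
  -- the real Gaussian averages
  set G : ℕ → EuclideanSpace ℝ (Fin n) → ℝ := fun k w =>
    Real.exp (-((k : ℝ) + 1)⁻¹ * ‖w‖ ^ 2) * (𝓕 f w).re with hG
  have hval : ∀ k w, ((G k w : ℝ) : ℂ) =
      Complex.exp (-((((k : ℝ) + 1)⁻¹ : ℝ) : ℂ) * ‖w‖ ^ 2) • 𝓕 f w := by
    intro k w
    have e : 𝓕 f w = ((𝓕 f w).re : ℂ) := Complex.ext (by simp) (by simp [him w])
    rw [smul_eq_mul]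
    conv_rhs => rw [e]
    simp only [hG]
    push_cast
    ring
  have hgauss : ∀ k : ℕ, Integrable fun w : EuclideanSpace ℝ (Fin n) =>
      Real.exp (-((k : ℝ) + 1)⁻¹ * ‖w‖ ^ 2) := by
    intro k
    have hb : (0 : ℝ) < ((((k : ℝ) + 1)⁻¹ : ℝ) : ℂ).re := by
      rw [Complex.ofReal_re]; positivity
    have := (GaussianFourier.integrable_cexp_neg_mul_sq_norm_add (V := EuclideanSpace ℝ (Fin n))
      hb 0 0).re
    refine this.congr (Eventually.of_forall fun w => ?_)
    have e : -((((k : ℝ) + 1)⁻¹ : ℝ) : ℂ) * (‖w‖ : ℂ) ^ 2 +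
        0 * ((inner ℝ (0 : EuclideanSpace ℝ (Fin n)) w : ℝ) : ℂ) =
        ((-((k : ℝ) + 1)⁻¹ * ‖w‖ ^ 2 : ℝ) : ℂ) := by
      push_cast; ring
    simp only [e]
    rw [← Complex.ofReal_exp]
    exact Complex.ofReal_re _
  have hGint : ∀ k, Integrable (G k) := by
    intro k
    refine Integrable.mono' ((hgauss k).mul_const (∫ x, ‖f x‖)) ?_ ?_
    · have : Continuous (G k) := by
        simp only [hG]
        have := Complex.continuous_re.comp hcont
        fun_prop
      exact this.aestronglyMeasurable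
    · refine Eventually.of_forall fun w => ?_
      simp only [hG]
      rw [norm_mul, Real.norm_of_nonneg (Real.exp_pos _).le]
      refine mul_le_mul_of_nonneg_left ?_ (Real.exp_pos _).le
      exact (Complex.abs_re_le_norm _).trans (norm_fou w)
  have hlim : Tendsto (fun k => ∫ w, G k w) atTop (𝓝 (f 0).re) := by
    have h1 := Real.tendsto_integral_gaussian_smul' hi (v := 0) hf.continuousAt
    have h2 : Tendsto (fun k : ℕ => (k : ℝ) + 1) atTop atTop :=
      tendsto_atTop_add_const_right _ _ tendsto_natCast_atTop_atTop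
    have h3 := (Complex.continuous_re.tendsto _).comp (h1.comp h2)
    refine h3.congr fun k => ?_
    simp only [Function.comp]
    rw [← mulf hi (by positivity : (0 : ℝ) < (k : ℝ) + 1)]
    have : ∫ w : EuclideanSpace ℝ (Fin n),
        Complex.exp (-((((k : ℝ) + 1)⁻¹ : ℝ) : ℂ) * ‖w‖ ^ 2) • 𝓕 f w = ((∫ w, G k w : ℝ) : ℂ) := by
      rw [← integral_complex_ofReal]
      exact integral_congr_ae (Eventually.of_forall fun w => (hval k w).symm)
    rw [this, Complex.ofReal_re]
  have hlint : ∀ k, ∫⁻ w, ENNReal.ofReal (G k w) = ENNReal.ofReal (∫ w, G k w) := by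
    intro k
    refine (ofReal_integral_eq_lintegral_ofReal (hGint k) (Eventually.of_forall fun w => ?_)).symm
    exact mul_nonneg (Real.exp_pos _).le (hre w)
  have hmeasG : ∀ k, Measurable fun w => ENNReal.ofReal (G k w) := by
    intro k
    have : Continuous (G k) := by
      simp only [hG]
      have := Complex.continuous_re.comp hcont
      fun_prop
    exact this.measurable.ennreal_ofReal
  have hmono : ∀ w, Monotone fun k => ENNReal.ofReal (G k w) := by
    intro w k l hkl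
    refine ENNReal.ofReal_le_ofReal ?_
    simp only [hG]
    refine mul_le_mul_of_nonneg_right ?_ (hre w)
    rw [Real.exp_le_exp]
    have h1 : ((l : ℝ) + 1)⁻¹ ≤ ((k : ℝ) + 1)⁻¹ := by
      have : (k : ℝ) ≤ l := by exact_mod_cast hkl
      exact inv_anti₀ (by positivity) (by linarith)
    have h2 : 0 ≤ ‖w‖ ^ 2 := by positivity
    nlinarith
  have hptw : ∀ w, Tendsto (fun k => ENNReal.ofReal (G k w)) atTop
      (𝓝 (ENNReal.ofReal (𝓕 f w).re)) := by
    intro w
    refine (ENNReal.continuous_ofReal.tendsto _).comp ?_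
    have h1 : Tendsto (fun k : ℕ => ((k : ℝ) + 1)⁻¹) atTop (𝓝 0) := by
      exact tendsto_inv_atTop_zero.comp
        (tendsto_atTop_add_const_right _ (1 : ℝ) (tendsto_natCast_atTop_atTop (R := ℝ)))
    have h2 : Tendsto (fun k : ℕ => Real.exp (-((k : ℝ) + 1)⁻¹ * ‖w‖ ^ 2) * (𝓕 f w).re) atTop
        (𝓝 (Real.exp (-0 * ‖w‖ ^ 2) * (𝓕 f w).re)) :=
      ((Real.continuous_exp.tendsto _).comp (h1.neg.mul_const _)).mul_const _
    have e0 : Real.exp (-0 * ‖w‖ ^ 2) * (𝓕 f w).re = (𝓕 f w).re := by simp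
    rw [e0] at h2
    exact h2
  have hconv := lintegral_tendsto_of_tendsto_of_monotone (μ := volume)
    (fun k => (hmeasG k).aemeasurable) (Eventually.of_forall hmono) (Eventually.of_forall hptw)
  have hconv2 : Tendsto (fun k => ∫⁻ w, ENNReal.ofReal (G k w)) atTop
      (𝓝 (ENNReal.ofReal (f 0).re)) := by
    simp only [hlint]
    exact (ENNReal.continuous_ofReal.tendsto _).comp hlim
  have hfin : ∫⁻ w, ENNReal.ofReal (𝓕 f w).re = ENNReal.ofReal (f 0).re :=
    tendsto_nhds_unique hconv hconv2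
  refine ⟨hcont.aestronglyMeasurable, ?_⟩
  rw [hasFiniteIntegral_iff_norm]
  have e : ∀ w, ‖𝓕 f w‖ = (𝓕 f w).re := by
    intro w
    have e : 𝓕 f w = ((𝓕 f w).re : ℂ) := Complex.ext (by simp) (by simp [him w])
    conv_lhs => rw [e]
    rw [Complex.norm_real, Real.norm_of_nonneg (hre w)]
  simp only [e, hfin]
  exact ENNReal.ofReal_lt_top

end Pool.Agent.TH41.KL.FIf
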