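import Mathlib
import Pool.Agent.TH41.KL.Stm

set_option autoImplicit false

open MeasureTheory Filter Topology

open scoped FourierTransform

namespace Pool.Agent.TH41.KL.FTf

open Pool.Agent.TH41.KL

lemma abs_cosA_le {n : ℕ} (u w : EuclideanSpace ℝ (Fin n)) : |cosA u w| ≤ 1 := by
  unfold cosA
  exact abs_real_inner_div_norm_mul_norm_le_one u w

lemma cosA_comm {n : ℕ} (u w : EuclideanSpace ℝ (Fin n)) : cosA u w = cosA w u := by
  unfold cosA
  rw [real_inner_comm, mul_comm ‖u‖]

lemma kk_comm {n : ℕ} (g : ℝ → ℝ) (u w : EuclideanSpace ℝ (Fin n)) : kk g u w = kk g w u := by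
  unfold kk
  by_cases hu : u ∈ Metric.ball (0 : EuclideanSpace ℝ (Fin n)) 1 <;>
  by_cases hw : w ∈ Metric.ball (0 : EuclideanSpace ℝ (Fin n)) 1 <;>
  simp [Set.indicator_of_mem, Set.indicator_of_notMem, hu, hw, cosA_comm u w]

lemma measurable_cosA {n : ℕ} :
    Measurable (fun p : EuclideanSpace ℝ (Fin n) × EuclideanSpace ℝ (Fin n) => cosA p.1 p.2) := by
  unfold cosA
  exact (Measurable.inner measurable_fst measurable_snd).div
    ((measurable_norm.comp measurable_fst).mul (measurable_norm.comp measurable_snd))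

/-- continuous bounded extension of `g` -/
lemma exists_ext (g : ℝ → ℝ) (hg : ContinuousOn g (Set.Icc (-1) 1)) :
    ∃ (G : ℝ → ℝ) (K : ℝ), Continuous G ∧ (∀ t, -1 ≤ t → t ≤ 1 → G t = g t) ∧ (∀ t, |G t| ≤ K) ∧
      0 ≤ K := by
  set G : ℝ → ℝ := Set.IccExtend (show (-1 : ℝ) ≤ 1 by norm_num) (fun t => g t) with hG
  have hGc : Continuous G := by
    apply Continuous.Icc_extend'
    exact continuousOn_iff_continuous_domRestrict.1 hg
  have hGg : ∀ t, -1 ≤ t → t ≤ 1 → G t = g t := by
    intro t h1 h2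
    rw [hG, Set.IccExtend_of_mem _ _ ⟨h1, h2⟩]
  obtain ⟨K, hK⟩ : ∃ K : ℝ, ∀ t, |G t| ≤ K := by
    obtain ⟨K, hK⟩ := (isCompact_Icc (a := (-1 : ℝ)) (b := 1)).exists_bound_of_continuousOn hg
    refine ⟨K, fun t => ?_⟩
    have := hK (Set.projIcc (-1) 1 (by norm_num) t) (Set.projIcc (-1 : ℝ) 1 (by norm_num) t).2
    simpa [hG, Set.IccExtend] using this
  exact ⟨G, K, hGc, hGg, hK, (abs_nonneg _).trans (hK 0)⟩

lemma kk_eq {n : ℕ} {g G : ℝ → ℝ} (hGg : ∀ t, -1 ≤ t → t ≤ 1 → G t = g t)
    (p : EuclideanSpace ℝ (Fin n) × EuclideanSpace ℝ (Fin n)) :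
    kk g p.1 p.2 = ((Metric.ball (0 : EuclideanSpace ℝ (Fin n)) 1) ×ˢ
      (Metric.ball (0 : EuclideanSpace ℝ (Fin n)) 1)).indicator
        (fun p => G (cosA p.1 p.2)) p := by
  have h := abs_le.1 (abs_cosA_le p.1 p.2)
  unfold kk
  by_cases hu : p.1 ∈ Metric.ball (0 : EuclideanSpace ℝ (Fin n)) 1
  · by_cases hw : p.2 ∈ Metric.ball (0 : EuclideanSpace ℝ (Fin n)) 1
    · rw [Set.indicator_of_mem hu, Set.indicator_of_mem hw,
        Set.indicator_of_mem (Set.mem_prod.2 ⟨hu, hw⟩), hGg _ h.1 h.2]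
    · rw [Set.indicator_of_mem hu, Set.indicator_of_notMem hw,
        Set.indicator_of_notMem (fun h => hw (Set.mem_prod.1 h).2)]
  · rw [Set.indicator_of_notMem hu,
        Set.indicator_of_notMem (fun h => hu (Set.mem_prod.1 h).1)]

section

variable {n : ℕ} {g : ℝ → ℝ} (hg : ContinuousOn g (Set.Icc (-1) 1))

include hg

lemma measurable_kk :
    Measurable (fun p : EuclideanSpace ℝ (Fin n) × EuclideanSpace ℝ (Fin n) => kk g p.1 p.2) := by
  obtain ⟨G, K, hGc, hGg, -, -⟩ := exists_ext g hg
  have : (fun p : EuclideanSpace ℝ (Fin n) × EuclideanSpace ℝ (Fin n) => kk g p.1 p.2) =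
      ((Metric.ball (0 : EuclideanSpace ℝ (Fin n)) 1) ×ˢ
      (Metric.ball (0 : EuclideanSpace ℝ (Fin n)) 1)).indicator
        (fun p => G (cosA p.1 p.2)) := by
    funext p
    exact kk_eq hGg p
  rw [this]
  exact (hGc.measurable.comp measurable_cosA).indicator
    (measurableSet_ball.prod measurableSet_ball)

lemma exists_bound :
    ∃ K : ℝ, 0 ≤ K ∧ ∀ u w : EuclideanSpace ℝ (Fin n), |kk g u w| ≤
      (Metric.ball (0 : EuclideanSpace ℝ (Fin n)) 1).indicator (fun _ => K) w := by
  obtain ⟨G, K, hGc, hGg, hK, hK0⟩ := exists_ext g hg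
  refine ⟨K, hK0, fun u w => ?_⟩
  rw [kk_eq hGg (u, w)]
  by_cases hw : w ∈ Metric.ball (0 : EuclideanSpace ℝ (Fin n)) 1
  · rw [Set.indicator_of_mem hw]
    by_cases h : (u, w) ∈ ((Metric.ball (0 : EuclideanSpace ℝ (Fin n)) 1) ×ˢ
      (Metric.ball (0 : EuclideanSpace ℝ (Fin n)) 1))
    · rw [Set.indicator_of_mem h]
      exact hK _
    · rw [Set.indicator_of_notMem h, abs_zero]
      exact hK0
  · rw [Set.indicator_of_notMem hw,
      Set.indicator_of_notMem (fun h => hw (Set.mem_prod.1 h).2), abs_zero]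

lemma integrable_kk :
    Integrable (fun p : EuclideanSpace ℝ (Fin n) × EuclideanSpace ℝ (Fin n) => kk g p.1 p.2)
      (volume.prod volume) := by
  obtain ⟨G, K, hGc, hGg, hK, -⟩ := exists_ext g hg
  have : (fun p : EuclideanSpace ℝ (Fin n) × EuclideanSpace ℝ (Fin n) => kk g p.1 p.2) =
      ((Metric.ball (0 : EuclideanSpace ℝ (Fin n)) 1) ×ˢ
      (Metric.ball (0 : EuclideanSpace ℝ (Fin n)) 1)).indicator
        (fun p => G (cosA p.1 p.2)) := by
    funext p
    exact kk_eq hGg p
  rw [this, integrable_indicator_iff (measurableSet_ball.prod measurableSet_ball)]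
  refine Measure.integrableOn_of_bounded (M := K) ?_ ?_ ?_
  · rw [Measure.prod_prod]
    exact (ENNReal.mul_lt_top measure_ball_lt_top measure_ball_lt_top).ne
  · exact (hGc.measurable.comp measurable_cosA).aestronglyMeasurable
  · exact Eventually.of_forall fun p => hK _

end

/-- the change of variables `(x, z) ↦ (x - z, - z)` -/
lemma mp_shear {n : ℕ} : MeasurePreserving
    (fun p : EuclideanSpace ℝ (Fin n) × EuclideanSpace ℝ (Fin n) => (p.1 - p.2, -p.2))
    (volume.prod volume) (volume.prod volume) := by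
  have h1 := measurePreserving_sub_prod (volume : Measure (EuclideanSpace ℝ (Fin n)))
    (volume : Measure (EuclideanSpace ℝ (Fin n)))
  have h2 : MeasurePreserving (Prod.map id (fun z : EuclideanSpace ℝ (Fin n) => -z))
      (volume.prod volume) (volume.prod volume) :=
    (MeasurePreserving.id (volume : Measure (EuclideanSpace ℝ (Fin n)))).prod
      (Measure.measurePreserving_neg (volume : Measure (EuclideanSpace ℝ (Fin n))))
  exact h2.comp h1

lemma continuousAt_cosA {n : ℕ} {x₀ z : EuclideanSpace ℝ (Fin n)} (hz : z ≠ 0) (hx : z ≠ x₀) :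
    ContinuousAt (fun x => cosA (x - z) (-z)) x₀ := by
  unfold cosA
  have h1 : ContinuousAt (fun x : EuclideanSpace ℝ (Fin n) => inner ℝ (x - z) (-z)) x₀ := by
    fun_prop
  have h2 : ContinuousAt (fun x : EuclideanSpace ℝ (Fin n) => ‖x - z‖ * ‖-z‖) x₀ := by
    fun_prop
  refine h1.div h2 ?_
  have h3 : ‖x₀ - z‖ ≠ 0 := norm_ne_zero_iff.2 (sub_ne_zero.2 (Ne.symm hx))
  have h4 : ‖-z‖ ≠ 0 := norm_ne_zero_iff.2 (neg_ne_zero.2 hz)
  exact mul_ne_zero h3 h4

lemma continuous_ff {n : ℕ} (hn : 0 < n) {g : ℝ → ℝ} (hg : ContinuousOn g (Set.Icc (-1) 1)) :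
    Continuous (ff (n := n) g) := by
  have : Nontrivial (EuclideanSpace ℝ (Fin n)) := by
    have : Nonempty (Fin n) := ⟨⟨0, hn⟩⟩
    infer_instance
  obtain ⟨K, hK0, hK⟩ := exists_bound (n := n) hg
  obtain ⟨G, K', hGc, hGg, -, -⟩ := exists_ext g hg
  rw [continuous_iff_continuousAt]
  intro x₀
  unfold ff
  refine continuousAt_of_dominated (bound := fun z =>
    (Metric.ball (0 : EuclideanSpace ℝ (Fin n)) 1).indicator (fun _ => K) (-z)) ?_ ?_ ?_ ?_
  · refine Eventually.of_forall fun x => ?_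
    have := (measurable_kk (n := n) hg).comp
      ((measurable_const.sub measurable_id : Measurable fun z : EuclideanSpace ℝ (Fin n) => x - z).prodMk
        (measurable_neg : Measurable fun z : EuclideanSpace ℝ (Fin n) => -z))
    exact this.aestronglyMeasurable
  · exact Eventually.of_forall fun x => Eventually.of_forall fun z => hK _ _
  · have h1 : Integrable ((Metric.ball (0 : EuclideanSpace ℝ (Fin n)) 1).indicator
        (fun _ => K)) volume := by
      rw [integrable_indicator_iff measurableSet_ball]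
      exact integrableOn_const measure_ball_lt_top.ne
    exact (Measure.measurePreserving_neg
      (volume : Measure (EuclideanSpace ℝ (Fin n)))).integrable_comp_of_integrable h1
  · have hz0 : ∀ᵐ z : EuclideanSpace ℝ (Fin n), z ≠ 0 := by
      rw [ae_iff]
      simp
    have hzx : ∀ᵐ z : EuclideanSpace ℝ (Fin n), z ≠ x₀ := by
      rw [ae_iff]
      simp
    have hzs : ∀ᵐ z : EuclideanSpace ℝ (Fin n), z ∉ Metric.sphere x₀ 1 := by
      rw [ae_iff]
      simp only [not_not]
      exact Measure.addHaar_sphere volume x₀ 1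
    filter_upwards [hz0, hzx, hzs] with z h0 hx hs
    by_cases hzb : -z ∈ Metric.ball (0 : EuclideanSpace ℝ (Fin n)) 1
    · rcases lt_or_ge (dist z x₀) 1 with h1 | h1
      · have h2 : (fun x => kk g (x - z) (-z)) =ᶠ[𝓝 x₀] fun x => G (cosA (x - z) (-z)) := by
          have h3 : ∀ᶠ x in 𝓝 x₀, dist z x < 1 :=
            (continuous_const.dist continuous_id).continuousAt.eventually_lt
              continuousAt_const h1
          filter_upwards [h3] with x hx
          rw [kk_eq hGg (x - z, -z), Set.indicator_of_mem]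
          refine Set.mem_prod.2 ⟨?_, hzb⟩
          rw [mem_ball_zero_iff]
          rwa [dist_comm, dist_eq_norm] at hx
        exact ContinuousAt.congr (hGc.continuousAt.comp (continuousAt_cosA h0 hx)) h2.symm
      · have h1' : 1 < dist z x₀ := by
          refine lt_of_le_of_ne h1 fun h => hs ?_
          rw [Metric.mem_sphere]
          exact h.symm
        have h2 : (fun x => kk g (x - z) (-z)) =ᶠ[𝓝 x₀] fun _ => 0 := by
          have h3 : ∀ᶠ x in 𝓝 x₀, 1 < dist z x :=
            continuousAt_const.eventually_lt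
              (continuous_const.dist continuous_id).continuousAt h1'
          filter_upwards [h3] with x hx
          rw [kk_eq hGg (x - z, -z), Set.indicator_of_notMem]
          intro h
          have h4 := (Set.mem_prod.1 h).1
          rw [mem_ball_zero_iff] at h4
          rw [dist_comm, dist_eq_norm] at hx
          exact absurd h4 (not_lt.2 hx.le)
        exact ContinuousAt.congr continuousAt_const h2.symm
    · have h2 : (fun x => kk g (x - z) (-z)) = fun _ => 0 := by
        funext x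
        rw [kk_eq hGg (x - z, -z), Set.indicator_of_notMem]
        intro h
        exact hzb (Set.mem_prod.1 h).2
      rw [h2]
      exact continuousAt_const

lemma integrable_shear {n : ℕ} {g : ℝ → ℝ} (hg : ContinuousOn g (Set.Icc (-1) 1)) :
    Integrable (fun p : EuclideanSpace ℝ (Fin n) × EuclideanSpace ℝ (Fin n) =>
      kk g (p.1 - p.2) (-p.2)) (volume.prod volume) :=
  mp_shear.integrable_comp_of_integrable (integrable_kk hg)

lemma integral_mul_kk {n : ℕ} {g : ℝ → ℝ} (hg : ContinuousOn g (Set.Icc (-1) 1))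
    (φ : EuclideanSpace ℝ (Fin n) × EuclideanSpace ℝ (Fin n) → ℝ) (hφ : Continuous φ)
    (hφb : ∀ p, |φ p| ≤ 1) :
    Integrable (fun p : EuclideanSpace ℝ (Fin n) × EuclideanSpace ℝ (Fin n) =>
      kk g p.1 p.2 * φ p) (volume.prod volume) :=
  (integrable_kk hg).mul_bdd (c := 1) hφ.aestronglyMeasurable (Eventually.of_forall hφb)

lemma integral_shear {n : ℕ} {E : Type*} [NormedAddCommGroup E] [NormedSpace ℝ E]
    (F : EuclideanSpace ℝ (Fin n) × EuclideanSpace ℝ (Fin n) → E)
    (hF : AEStronglyMeasurable F (volume.prod volume)) :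
    ∫ p : EuclideanSpace ℝ (Fin n) × EuclideanSpace ℝ (Fin n), F (p.1 - p.2, -p.2)
      ∂(volume.prod volume) = ∫ p, F p ∂(volume.prod volume) := by
  conv_rhs => rw [← mp_shear.map_eq]
  rw [integral_map mp_shear.measurable.aemeasurable (by rw [mp_shear.map_eq]; exact hF)]

/-- the Fourier transform as an integral over pairs -/
lemma fourier_pairs {n : ℕ} {g : ℝ → ℝ} (hg : ContinuousOn g (Set.Icc (-1) 1))
    (ξ : EuclideanSpace ℝ (Fin n)) :
    𝓕 (fun x => ((ff g x : ℝ) : ℂ)) ξ =
      ∫ p : EuclideanSpace ℝ (Fin n) × EuclideanSpace ℝ (Fin n),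
        Complex.exp (↑(-2 * Real.pi * inner ℝ (p.1 - p.2) ξ) * Complex.I) *
          ((kk g p.1 p.2 : ℝ) : ℂ) ∂(volume.prod volume) := by
  set F : EuclideanSpace ℝ (Fin n) × EuclideanSpace ℝ (Fin n) → ℂ := fun p =>
    Complex.exp (↑(-2 * Real.pi * inner ℝ (p.1 - p.2) ξ) * Complex.I) *
          ((kk g p.1 p.2 : ℝ) : ℂ) with hF
  have hFi : Integrable F (volume.prod volume) := by
    have h1 : Integrable (fun p : EuclideanSpace ℝ (Fin n) × EuclideanSpace ℝ (Fin n) =>
        ((kk g p.1 p.2 : ℝ) : ℂ)) (volume.prod volume) := (integrable_kk hg).ofReal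
    refine h1.bdd_mul (c := 1) ?_ ?_
    · refine Continuous.aestronglyMeasurable ?_
      fun_prop
    · refine Eventually.of_forall fun p => ?_
      rw [Complex.norm_exp_ofReal_mul_I]
  have h1 := integral_shear F hFi.1
  have h2 : Integrable (fun p : EuclideanSpace ℝ (Fin n) × EuclideanSpace ℝ (Fin n) =>
      F (p.1 - p.2, -p.2)) (volume.prod volume) := mp_shear.integrable_comp_of_integrable hFi
  rw [← h1, integral_prod _ h2, Real.fourier_eq']
  refine integral_congr_ae (Eventually.of_forall fun x => ?_)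
  simp only [ff, smul_eq_mul, hF]
  rw [← integral_complex_ofReal, ← integral_const_mul]
  refine integral_congr_ae (Eventually.of_forall fun z => ?_)
  simp only
  congr 5
  abel_nf

lemma swap_kk {n : ℕ} {g : ℝ → ℝ} (c s : EuclideanSpace ℝ (Fin n) → ℝ) :
    ∫ p : EuclideanSpace ℝ (Fin n) × EuclideanSpace ℝ (Fin n), kk g p.1 p.2 * (c p.1 * s p.2)
      ∂(volume.prod volume) =
    ∫ p : EuclideanSpace ℝ (Fin n) × EuclideanSpace ℝ (Fin n), kk g p.1 p.2 * (s p.1 * c p.2)
      ∂(volume.prod volume) := by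
  rw [← integral_prod_swap]
  refine integral_congr_ae (Eventually.of_forall fun p => ?_)
  simp only [Prod.fst_swap, Prod.snd_swap]
  rw [kk_comm g p.2 p.1, mul_comm (c p.2)]

theorem ft : S_f := by
  intro n g hn hg
  obtain ⟨K, hK0, hK⟩ := exists_bound (n := n) hg
  refine ⟨continuous_ff hn hg, (integrable_shear hg).integral_prod_left, ?_, ?_, ?_⟩
  · refine ⟨∫ z : EuclideanSpace ℝ (Fin n),
      (Metric.ball (0 : EuclideanSpace ℝ (Fin n)) 1).indicator (fun _ => K) (-z), fun x => ?_⟩
    have h1 : Integrable ((Metric.ball (0 : EuclideanSpace ℝ (Fin n)) 1).indicator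
        (fun _ => K)) volume := by
      rw [integrable_indicator_iff measurableSet_ball]
      exact integrableOn_const measure_ball_lt_top.ne
    have h2 := (Measure.measurePreserving_neg
      (volume : Measure (EuclideanSpace ℝ (Fin n)))).integrable_comp_of_integrable h1
    rw [← Real.norm_eq_abs]
    unfold ff
    exact norm_integral_le_of_norm_le h2 (Eventually.of_forall fun z => hK _ _)
  · have h1 := integral_shear (fun p : EuclideanSpace ℝ (Fin n) × EuclideanSpace ℝ (Fin n) =>
      kk g p.1 p.2) (integrable_kk hg).1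
    rw [integral_prod _ (integrable_kk hg)] at h1
    rw [← h1, integral_prod _ (integrable_shear hg)]
    rfl
  · intro ξ
    rw [fourier_pairs hg ξ]
    set c : EuclideanSpace ℝ (Fin n) → ℝ := fun u => Real.cos (2 * Real.pi * inner ℝ ξ u) with hc
    set s : EuclideanSpace ℝ (Fin n) → ℝ := fun u => Real.sin (2 * Real.pi * inner ℝ ξ u) with hs
    have hcc : Continuous c := by
      rw [hc]; fun_prop
    have hsc : Continuous s := by
      rw [hs]; fun_prop
    have hc1 : ∀ u, |c u| ≤ 1 := fun u => Real.abs_cos_le_one _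
    have hs1 : ∀ u, |s u| ≤ 1 := fun u => Real.abs_sin_le_one _
    have hmul : ∀ a b : ℝ, |a| ≤ 1 → |b| ≤ 1 → |a * b| ≤ 1 := fun a b ha hb => by
      rw [abs_mul]
      exact mul_le_one₀ ha (abs_nonneg _) hb
    have icc := integral_mul_kk hg (fun p => c p.1 * c p.2) (by fun_prop)
      (fun p => hmul _ _ (hc1 _) (hc1 _))
    have iss := integral_mul_kk hg (fun p => s p.1 * s p.2) (by fun_prop)
      (fun p => hmul _ _ (hs1 _) (hs1 _))
    have ics := integral_mul_kk hg (fun p => c p.1 * s p.2) (by fun_prop)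
      (fun p => hmul _ _ (hc1 _) (hs1 _))
    have isc := integral_mul_kk hg (fun p => s p.1 * c p.2) (by fun_prop)
      (fun p => hmul _ _ (hs1 _) (hc1 _))
    have hpt : ∀ p : EuclideanSpace ℝ (Fin n) × EuclideanSpace ℝ (Fin n),
        Complex.exp (↑(-2 * Real.pi * inner ℝ (p.1 - p.2) ξ) * Complex.I) *
          ((kk g p.1 p.2 : ℝ) : ℂ) =
        ((kk g p.1 p.2 * (c p.1 * c p.2) + kk g p.1 p.2 * (s p.1 * s p.2) : ℝ) : ℂ) +
        ((kk g p.1 p.2 * (c p.1 * s p.2) - kk g p.1 p.2 * (s p.1 * c p.2) : ℝ) : ℂ) *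
          Complex.I := by
      intro p
      have e1 : (-2 * Real.pi * inner ℝ (p.1 - p.2) ξ : ℝ) =
          2 * Real.pi * inner ℝ ξ p.2 - 2 * Real.pi * inner ℝ ξ p.1 := by
        rw [inner_sub_left, real_inner_comm, real_inner_comm p.2 ξ]
        ring
      rw [e1, Complex.exp_mul_I, ← Complex.ofReal_cos, ← Complex.ofReal_sin, Real.cos_sub,
        Real.sin_sub]
      simp only [hc, hs]
      push_cast
      ring
    simp_rw [hpt]
    rw [integral_add, integral_mul_const, integral_complex_ofReal, integral_complex_ofReal,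
      integral_add icc iss, integral_sub ics isc, swap_kk c s, sub_self, Complex.ofReal_zero,
      zero_mul, add_zero, integral_prod _ icc, integral_prod _ iss]
    · exact (icc.add iss).ofReal
    · exact ((ics.sub isc).ofReal).mul_const _

end Pool.Agent.TH41.KL.FTf
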