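import Mathlib
import Pool.Agent.TH41.KL.Stm

set_option autoImplicit false

open MeasureTheory Filter Topology

open scoped FourierTransform

namespace Pool.Agent.TH41.KL.NGf

open Pool.Agent.TH41.KL

lemma cosA_self {n : ℕ} {u : EuclideanSpace ℝ (Fin n)} (hu : u ≠ 0) : cosA u u = 1 := by
  unfold cosA
  rw [real_inner_self_eq_norm_mul_norm]
  exact div_self (mul_ne_zero (norm_ne_zero_iff.2 hu) (norm_ne_zero_iff.2 hu))

lemma quad {a b s : ℝ} (ha : 0 ≤ a) (ha1 : a ≤ 1) (hb : 0 ≤ b) (hb1 : b ≤ 1) (hs : s ≤ 1 / 2) :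
    a ^ 2 + b ^ 2 - 2 * a * b * s ≤ 2 - 2 * s := by
  have h1 : 0 ≤ (1 - a * b) * (1 / 2 - s) := by
    apply mul_nonneg
    · nlinarith
    · linarith
  have h2 : 0 ≤ 1 - a ^ 2 - b ^ 2 + a * b := by
    rcases le_total a b with h | h
    · nlinarith [mul_nonneg ha (sub_nonneg.2 ha1), mul_nonneg (sub_nonneg.2 h) (sub_nonneg.2 hb1)]
    · nlinarith [mul_nonneg hb (sub_nonneg.2 hb1), mul_nonneg (sub_nonneg.2 h) (sub_nonneg.2 ha1)]
  nlinarith

theorem ng : S_ng := by
  intro n g hn
  have : Nontrivial (EuclideanSpace ℝ (Fin n)) := by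
    have : Nonempty (Fin n) := ⟨⟨0, hn⟩⟩
    infer_instance
  refine ⟨?_, ?_⟩
  · unfold ff
    have h1 : (fun z : EuclideanSpace ℝ (Fin n) => kk g (0 - z) (-z)) =ᵐ[volume]
        (Metric.ball (0 : EuclideanSpace ℝ (Fin n)) 1).indicator (fun _ => g 1) := by
      have h0 : ∀ᵐ z : EuclideanSpace ℝ (Fin n), z ≠ 0 := by
        rw [ae_iff]
        simp
      filter_upwards [h0] with z hz
      unfold kk
      rw [zero_sub]
      by_cases h : z ∈ Metric.ball (0 : EuclideanSpace ℝ (Fin n)) 1
      · have h' : -z ∈ Metric.ball (0 : EuclideanSpace ℝ (Fin n)) 1 := by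
          rw [mem_ball_zero_iff] at h ⊢
          rwa [norm_neg]
        rw [Set.indicator_of_mem h', Set.indicator_of_mem h', Set.indicator_of_mem h,
          cosA_self (neg_ne_zero.2 hz)]
      · have h' : -z ∉ Metric.ball (0 : EuclideanSpace ℝ (Fin n)) 1 := by
          rw [mem_ball_zero_iff] at h ⊢
          rwa [norm_neg]
        rw [Set.indicator_of_notMem h', Set.indicator_of_notMem h]
    rw [integral_congr_ae h1, integral_indicator Metric.isOpen_ball.measurableSet,
      setIntegral_const, smul_eq_mul, mul_comm]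
    rfl
  · intro s hs1 hs hg x hx
    unfold ff
    refine integral_nonpos fun z => ?_
    change kk g (x - z) (-z) ≤ 0
    unfold kk
    by_cases h1 : x - z ∈ Metric.ball (0 : EuclideanSpace ℝ (Fin n)) 1
    · by_cases h2 : -z ∈ Metric.ball (0 : EuclideanSpace ℝ (Fin n)) 1
      · rw [Set.indicator_of_mem h1, Set.indicator_of_mem h2]
        rw [mem_ball_zero_iff] at h1 h2
        set u := x - z with hu
        set w := -z with hw
        have hxuw : x = u - w := by rw [hu, hw]; abel
        have hr : 1 ≤ √(2 * (1 - s)) := by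
          rw [Real.one_le_sqrt]; linarith
        have hx2 : 2 * (1 - s) ≤ ‖x‖ ^ 2 := by
          rw [← Real.sq_sqrt (by linarith : 0 ≤ 2 * (1 - s))]
          exact pow_le_pow_left₀ (Real.sqrt_nonneg _) hx 2
        have hu0 : u ≠ 0 := by
          intro h
          have : ‖x‖ < 1 := by rw [hxuw, h, zero_sub, norm_neg]; exact h2
          linarith
        have hw0 : w ≠ 0 := by
          intro h
          have : ‖x‖ < 1 := by rw [hxuw, h, sub_zero]; exact h1
          linarith
        have ha : 0 < ‖u‖ := norm_pos_iff.2 hu0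
        have hb : 0 < ‖w‖ := norm_pos_iff.2 hw0
        have hin : inner ℝ u w = ‖u‖ * ‖w‖ * cosA u w := by
          unfold cosA
          field_simp
        have hn2 : ‖x‖ ^ 2 = ‖u‖ ^ 2 - 2 * inner ℝ u w + ‖w‖ ^ 2 := by
          rw [hxuw]; exact norm_sub_sq_real u w
        have hab : 0 < ‖u‖ * ‖w‖ := mul_pos ha hb
        apply hg
        · unfold cosA
          rw [le_div_iff₀ hab]
          have := abs_real_inner_le_norm u w
          linarith [(abs_le.1 this).1]
        · have hq := quad ha.le h1.le hb.le h2.le hs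
          rw [hin] at hn2
          by_contra hc
          have hc' := not_le.1 hc
          have : ‖u‖ * ‖w‖ * s < ‖u‖ * ‖w‖ * cosA u w := mul_lt_mul_of_pos_left hc' hab
          nlinarith
      · rw [Set.indicator_of_mem h1, Set.indicator_of_notMem h2]
    · rw [Set.indicator_of_notMem h1]

end Pool.Agent.TH41.KL.NGf
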