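import Mathlib
import Pool.Agent.TH41.KL.Stm

set_option autoImplicit false

open MeasureTheory Filter Topology

open scoped FourierTransform

namespace Pool.Agent.TH41.KL.QFf

open Pool.Agent.TH41.KL

/-- Monte Carlo: a bounded measurable kernel which is positive semidefinite on all finite families
has a nonnegative double integral. -/
lemma psd_prob {X : Type*} [MeasurableSpace X] (P : Measure X) [IsProbabilityMeasure P]
    (F : X × X → ℝ) (hF : Measurable F) (C : ℝ) (hC : ∀ z, |F z| ≤ C)
    (hpos : ∀ (m : ℕ) (x : Fin m → X), 0 ≤ ∑ i, ∑ j, F (x i, x j)) :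
    0 ≤ ∫ z, F z ∂(P.prod P) := by
  set I := ∫ z, F z ∂(P.prod P) with hI
  have key : ∀ m : ℕ, 0 ≤ (m : ℝ) * (m - 1) * I + m * C := by
    intro m
    let Q : Measure (Fin m → X) := Measure.pi (fun _ => P)
    have hint : ∀ i j : Fin m, Integrable (fun x : Fin m → X => F (x i, x j)) Q := by
      intro i j
      refine Integrable.of_bound (C := C) ?_ ?_
      · exact (hF.comp ((measurable_pi_apply i).prodMk (measurable_pi_apply j))).aestronglyMeasurable
      · exact Eventually.of_forall fun x => by simpa using hC (x i, x j)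
    have h1 : 0 ≤ ∫ x, ∑ i, ∑ j, F (x i, x j) ∂Q := integral_nonneg fun x => hpos m x
    rw [integral_finsetSum _ (fun i _ => integrable_finsetSum _ (fun j _ => hint i j))] at h1
    have h2 : ∀ i j : Fin m, i ≠ j → ∫ x, F (x i, x j) ∂Q = I := by
      intro i j hij
      have hind : ProbabilityTheory.iIndepFun (fun (i : Fin m) (x : Fin m → X) => x i) Q :=
        ProbabilityTheory.iIndepFun_pi (μ := fun _ : Fin m => P) (X := fun _ x => x)
          (fun _ => aemeasurable_id)
      have h3 := (hind.indepFun hij)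
      rw [ProbabilityTheory.indepFun_iff_map_prod_eq_prod_map_map
        (measurable_pi_apply i).aemeasurable (measurable_pi_apply j).aemeasurable] at h3
      have e1 : ∀ k : Fin m, Q.map (fun x : Fin m → X => x k) = P := fun k =>
        (measurePreserving_eval (fun _ : Fin m => P) k).map_eq
      rw [e1, e1] at h3
      rw [hI, ← h3, integral_map]
      · exact ((measurable_pi_apply i).prodMk (measurable_pi_apply j)).aemeasurable
      · exact hF.aestronglyMeasurable
    have h4 : ∀ i : Fin m, ∫ x, F (x i, x i) ∂Q ≤ C := by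
      intro i
      calc ∫ x, F (x i, x i) ∂Q ≤ ∫ _x, C ∂Q :=
            integral_mono (hint i i) (integrable_const _) fun x => (abs_le.1 (hC (x i, x i))).2
        _ = C := by simp [Q]
    have h5 : ∀ i : Fin m, ∫ x, ∑ j, F (x i, x j) ∂Q ≤ (m - 1) * I + C := by
      intro i
      rw [integral_finsetSum _ (fun j _ => hint i j), ← Finset.add_sum_erase _ _ (Finset.mem_univ i)]
      have : ∑ j ∈ Finset.univ.erase i, ∫ x, F (x i, x j) ∂Q = (m - 1) * I := by
        rw [Finset.sum_congr rfl (fun j hj => h2 i j (Finset.ne_of_mem_erase hj).symm)]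
        rw [Finset.sum_const, Finset.card_erase_of_mem (Finset.mem_univ i), Finset.card_univ,
          Fintype.card_fin, nsmul_eq_mul, Nat.cast_sub (by have := i.2; omega)]
        simp
      rw [this]
      have := h4 i
      linarith
    calc (0 : ℝ) ≤ ∑ i, ∫ x, ∑ j, F (x i, x j) ∂Q := h1
      _ ≤ ∑ _i : Fin m, ((m - 1) * I + C) := Finset.sum_le_sum fun i _ => h5 i
      _ = _ := by simp; ring
  by_contra hneg
  push Not at hneg
  have hC0 : 0 ≤ C := by
    have hne : Nonempty X := by
      by_contra h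
      rw [not_nonempty_iff] at h
      have h1 : P Set.univ = 1 := measure_univ
      rw [Set.eq_empty_of_isEmpty (Set.univ : Set X)] at h1
      simp at h1
    obtain ⟨x⟩ := hne
    exact (abs_nonneg _).trans (hC (x, x))
  obtain ⟨m, hm⟩ := exists_nat_gt (C / (-I) + 1)
  have hm1 : (1 : ℝ) < m := by
    have : 0 ≤ C / (-I) := div_nonneg hC0 (by linarith)
    linarith
  have h6 : C / (-I) < m - 1 := by linarith
  rw [div_lt_iff₀ (by linarith)] at h6
  have h7 := key m
  nlinarith

lemma psd_finite {X : Type*} [MeasurableSpace X] (μ : Measure X) [IsFiniteMeasure μ]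
    (F : X × X → ℝ) (hF : Measurable F) (C : ℝ) (hC : ∀ z, |F z| ≤ C)
    (hpos : ∀ (m : ℕ) (x : Fin m → X), 0 ≤ ∑ i, ∑ j, F (x i, x j)) :
    0 ≤ ∫ u, ∫ w, F (u, w) ∂μ ∂μ := by
  rcases eq_or_ne μ 0 with h0 | h0
  · simp [h0]
  have hne : NeZero μ := ⟨h0⟩
  let P : Measure X := (μ Set.univ)⁻¹ • μ
  have hP : IsProbabilityMeasure P := by
    refine ⟨?_⟩
    simp only [P, Measure.smul_apply, smul_eq_mul]
    exact ENNReal.inv_mul_cancel (by simpa using h0) (measure_ne_top _ _)
  have h1 := psd_prob P F hF C hC hpos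
  have hint : Integrable F (P.prod P) :=
    Integrable.of_bound (C := C) hF.aestronglyMeasurable
      (Eventually.of_forall fun z => by simpa using hC z)
  rw [integral_prod _ hint] at h1
  have h2 : ∫ u, ∫ w, F (u, w) ∂P ∂P =
      ((μ Set.univ)⁻¹).toReal * (((μ Set.univ)⁻¹).toReal * ∫ u, ∫ w, F (u, w) ∂μ ∂μ) := by
    simp only [P, integral_smul_measure, smul_eq_mul, integral_const_mul]
  rw [h2] at h1
  have hpos' : 0 < ((μ Set.univ)⁻¹).toReal := by
    apply ENNReal.toReal_pos
    · simp
    · simpa using h0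
  by_contra hcon
  push Not at hcon
  have h4 : ((μ Set.univ)⁻¹).toReal * (((μ Set.univ)⁻¹).toReal * ∫ u, ∫ w, F (u, w) ∂μ ∂μ) < 0 :=
    mul_neg_of_pos_of_neg hpos' (mul_neg_of_pos_of_neg hpos' hcon)
  linarith

/-- the unit vector in the direction of `u` -/
noncomputable def un {n : ℕ} (e u : EuclideanSpace ℝ (Fin n)) : EuclideanSpace ℝ (Fin n) :=
  open Classical in if u = 0 then e else ‖u‖⁻¹ • u

lemma norm_un {n : ℕ} {e : EuclideanSpace ℝ (Fin n)} (he : ‖e‖ = 1)
    (u : EuclideanSpace ℝ (Fin n)) : ‖un e u‖ = 1 := by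
  unfold un
  split_ifs with h
  · exact he
  · rw [norm_smul, norm_inv, norm_norm, inv_mul_cancel₀ (norm_ne_zero_iff.2 h)]

lemma measurable_un {n : ℕ} (e : EuclideanSpace ℝ (Fin n)) : Measurable (un e) := by
  unfold un
  refine Measurable.ite (measurableSet_eq) measurable_const ?_
  exact (measurable_norm.inv).smul measurable_id

lemma inner_un {n : ℕ} {e u w : EuclideanSpace ℝ (Fin n)} (hu : u ≠ 0) (hw : w ≠ 0) :
    inner ℝ (un e u) (un e w) = cosA u w := by
  simp only [un, if_neg hu, if_neg hw, cosA]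
  rw [real_inner_smul_left, real_inner_smul_right]
  have h1 := norm_ne_zero_iff.2 hu
  have h2 := norm_ne_zero_iff.2 hw
  field_simp

theorem qf : S_q := by
  intro n g hn hg hPD φ hφ hM
  obtain ⟨M, hM⟩ := hM
  have hM0 : 0 ≤ M := (abs_nonneg _).trans (hM 0)
  have : NeZero n := ⟨hn.ne'⟩
  have : Nontrivial (EuclideanSpace ℝ (Fin n)) := by
    have : Nonempty (Fin n) := ⟨⟨0, hn⟩⟩
    infer_instance
  set B : Set (EuclideanSpace ℝ (Fin n)) := Metric.ball 0 1 with hB
  set G : ℝ → ℝ := Set.IccExtend (show (-1 : ℝ) ≤ 1 by norm_num) (fun t => g t) with hG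
  have hGc : Continuous G := by
    apply Continuous.Icc_extend'
    exact continuousOn_iff_continuous_domRestrict.1 hg
  have hGg : ∀ t, -1 ≤ t → t ≤ 1 → G t = g t := by
    intro t h1 h2
    rw [hG, Set.IccExtend_of_mem _ _ ⟨h1, h2⟩]
  obtain ⟨K, hK⟩ : ∃ K : ℝ, ∀ t, |G t| ≤ K := by
    obtain ⟨K, hK⟩ := (isCompact_Icc (a := (-1 : ℝ)) (b := 1)).exists_bound_of_continuousOn hg
    refine ⟨K, fun t => ?_⟩
    have := hK (Set.projIcc (-1) 1 (by norm_num) t) (Set.projIcc (-1 : ℝ) 1 (by norm_num) t).2
    simpa [hG, Set.IccExtend] using this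
  have hK0 : 0 ≤ K := (abs_nonneg _).trans (hK 0)
  obtain ⟨e, he⟩ : ∃ e : EuclideanSpace ℝ (Fin n), ‖e‖ = 1 := exists_norm_eq _ zero_le_one
  let F : EuclideanSpace ℝ (Fin n) × EuclideanSpace ℝ (Fin n) → ℝ :=
    fun z => G (inner ℝ (un e z.1) (un e z.2)) * (φ z.1 * φ z.2)
  have hFm : Measurable F := by
    refine Measurable.mul (hGc.measurable.comp ?_) ?_
    · exact Measurable.inner ((measurable_un e).comp measurable_fst)
        ((measurable_un e).comp measurable_snd)
    · exact (hφ.measurable.comp measurable_fst).mul (hφ.measurable.comp measurable_snd)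
  have hFb : ∀ z, |F z| ≤ K * (M * M) := by
    intro z
    rw [abs_mul, abs_mul]
    exact mul_le_mul (hK _) (mul_le_mul (hM _) (hM _) (abs_nonneg _) hM0)
      (mul_nonneg (abs_nonneg _) (abs_nonneg _)) hK0
  have hcs : ∀ u w : EuclideanSpace ℝ (Fin n), |inner ℝ (un e u) (un e w)| ≤ 1 := by
    intro u w
    have := abs_real_inner_le_norm (un e u) (un e w)
    rwa [norm_un he, norm_un he, mul_one] at this
  have hpos : ∀ (m : ℕ) (x : Fin m → EuclideanSpace ℝ (Fin n)),
      0 ≤ ∑ i, ∑ j, F (x i, x j) := by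
    intro m x
    have := hPD m (fun i => un e (x i)) (fun i => φ (x i)) (fun i => norm_un he _)
    refine this.trans_eq ?_
    refine Finset.sum_congr rfl fun i _ => Finset.sum_congr rfl fun j _ => ?_
    have h1 := abs_le.1 (hcs (x i) (x j))
    simp only [F]
    rw [hGg _ h1.1 h1.2]
    ring
  have : IsFiniteMeasure (volume.restrict B : Measure (EuclideanSpace ℝ (Fin n))) :=
    ⟨by simpa [hB] using measure_ball_lt_top⟩
  have hmain := psd_finite (volume.restrict B) F hFm _ hFb hpos
  refine hmain.trans_eq ?_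
  -- compare the integrals
  have hBm : MeasurableSet B := measurableSet_ball
  have hne : ∀ᵐ w : EuclideanSpace ℝ (Fin n), w ≠ 0 := by
    rw [ae_iff]
    simp
  have hinner : ∀ u : EuclideanSpace ℝ (Fin n), u ≠ 0 → u ∈ B →
      ∫ w, kk g u w * (φ u * φ w) = ∫ w in B, F (u, w) := by
    intro u hu huB
    rw [← integral_indicator hBm]
    apply integral_congr_ae
    filter_upwards [hne] with w hw
    by_cases hwB : w ∈ B
    · rw [Set.indicator_of_mem hwB]
      simp only [kk, ← hB, Set.indicator_of_mem hwB, Set.indicator_of_mem huB, F]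
      have h1 := abs_le.1 (hcs u w)
      rw [hGg _ h1.1 h1.2, inner_un hu hw]
    · rw [Set.indicator_of_notMem hwB]
      simp only [kk, ← hB, Set.indicator_of_notMem hwB, Set.indicator_of_mem huB, zero_mul]
  rw [← integral_indicator hBm]
  apply integral_congr_ae
  filter_upwards [hne] with u hu
  by_cases huB : u ∈ B
  · rw [Set.indicator_of_mem huB, hinner u hu huB]
  · rw [Set.indicator_of_notMem huB]
    have : ∀ w, kk g u w * (φ u * φ w) = 0 := by
      intro w
      simp only [kk, ← hB, Set.indicator_of_notMem huB, zero_mul]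
    simp [this]

end Pool.Agent.TH41.KL.QFf
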