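import Mathlib
import Pool.Agent.TH41.KL.ASM
import Pool.Agent.TH41.KL.QF
import Pool.Agent.TH41.KL.FT
import Pool.Agent.TH41.KL.FI
import Pool.Agent.TH41.KL.NG

set_option autoImplicit false

open MeasureTheory Filter Topology

namespace Pool.Agent.TH41.KL.FINf

open Pool.Agent.TH41.KL

theorem kmain : S_kmain := ASMf.kmain_of QFf.qf FTf.ft FIf.fi NGf.ng

/-- numerical value of the exponent for kissing numbers -/
theorem num_lower : (3955 / 10000 : ℝ) < 1 / 2 * Real.logb 2 (2 * Real.exp 1 / Real.pi) := by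
  have hpi := Real.pi_pos
  have h1 : 17304 / 10000 < 2 * Real.exp 1 / Real.pi := by
    have h2 : Real.pi < 3.1416 := Real.pi_lt_d4
    have h3 : (2.7182818283 : ℝ) < Real.exp 1 := Real.exp_one_gt_d9
    rw [lt_div_iff₀ hpi]
    nlinarith
  have h3 : (2 : ℝ) ^ 53 < (2 * Real.exp 1 / Real.pi) ^ 67 := by
    refine lt_trans ?_ (pow_lt_pow_left₀ h1 (by norm_num) (by norm_num))
    norm_num
  have h4 : (53 : ℝ) < 67 * Real.logb 2 (2 * Real.exp 1 / Real.pi) := by
    have h5 := Real.logb_lt_logb (b := 2) (by norm_num) (by positivity) h3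
    rw [Real.logb_pow, Real.logb_pow, Real.logb_self_eq_one (by norm_num)] at h5
    push_cast at h5
    linarith
  linarith

end Pool.Agent.TH41.KL.FINf
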